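import Pool.Agent.H86.ET.Base

/-!
# Every rational Diophantine triple of squares lies in a quintuple with four square elements

Let `x`, `y`, `z` be nonzero rationals such that `x² y² + 1`, `x² z² + 1` and `y² z² + 1` are
squares.  The five numbers `x²`, `y²`, `z²`, `1 / (x y z)²`, `fifth x y z` are pairwise different
and any two of them have a product which is one less than a square.  The last one vanishes only on
four explicit surfaces, and it is a square if and only if the polynomial `quartic x y z` is one.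

`fifth x y z` is `X(2 S) / (x y z)²` for the point `S = (1, r s t)` of the curve
`Y² = (X + x² y²) (X + x² z²) (X + y² z²)`.
-/

set_option autoImplicit false

namespace Pool.Agent.Results.MP_1eba88_nt.EveryTriple

/-- `(1 - B)² - 4 C (A + 2)`, where `A`, `B`, `C` are the elementary symmetric functions of
`p = x² y²`, `q = x² z²`, `r = y² z²`. -/
def quartic (x y z : ℚ) : ℚ :=
  (1 - ((x * y) ^ 2 * (x * z) ^ 2 + (x * y) ^ 2 * (y * z) ^ 2 + (x * z) ^ 2 * (y * z) ^ 2)) ^ 2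
    - 4 * ((x * y) ^ 2 * (x * z) ^ 2 * (y * z) ^ 2) *
      ((x * y) ^ 2 + (x * z) ^ 2 + (y * z) ^ 2 + 2)

/-- The fifth element `((1 - B)² - 4 C (A + 2)) / (4 (1 + p) (1 + q) (1 + r) (x y z)²)`. -/
def fifth (x y z : ℚ) : ℚ :=
  quartic x y z /
    (4 * ((1 + (x * y) ^ 2) * (1 + (x * z) ^ 2) * (1 + (y * z) ^ 2)) * (x * y * z) ^ 2)

/-- The five numbers `x²`, `y²`, `z²`, `1 / (x y z)²`, `fifth x y z`. -/
def five (x y z : ℚ) : Fin 5 → ℚ :=
  ![x ^ 2, y ^ 2, z ^ 2, (1 / (x * y * z)) ^ 2, fifth x y z]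

/-- The sum of two nonzero fourth powers of rationals, one of them `1`, is not a square. -/
theorem not_square (t : ℚ) (ht : t ≠ 0) : ¬ IsSquare (t ^ 2 * t ^ 2 + 1) := by
  rintro ⟨s, hs⟩
  have hd : (t.den : ℚ) ≠ 0 := by exact_mod_cast t.den_ne_zero
  have h1 : ((t.num ^ 4 + (t.den : ℤ) ^ 4 : ℤ) : ℚ) = (s * t.den ^ 2) * (s * t.den ^ 2) := by
    have h2 : (t.num : ℚ) = t * t.den := (Rat.mul_den_eq_num t).symm
    push_cast
    rw [h2]
    linear_combination (t.den : ℚ) ^ 4 * hs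
  have h3 : IsSquare ((t.num ^ 4 + (t.den : ℤ) ^ 4 : ℤ)) := by
    rw [← Rat.isSquare_intCast_iff]
    exact ⟨_, h1⟩
  obtain ⟨c, hc⟩ := h3
  exact not_fermat_42 (Rat.num_ne_zero.2 ht) (by exact_mod_cast t.den_ne_zero)
    (by rw [hc]; ring : t.num ^ 4 + (t.den : ℤ) ^ 4 = c ^ 2)

theorem quartic_factor (x y z : ℚ) :
    quartic x y z = (x * y * z * (x - y - z) - 1) * (x * y * z * (x - y + z) + 1) *
      (x * y * z * (x + y - z) + 1) * (x * y * z * (x + y + z) - 1) := by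
  unfold quartic
  ring

theorem fifth_eq {x y z r s t : ℚ} (hx : x ≠ 0) (hy : y ≠ 0) (hz : z ≠ 0)
    (hr0 : r ≠ 0) (hs0 : s ≠ 0) (ht0 : t ≠ 0)
    (hr : x ^ 2 * y ^ 2 + 1 = r ^ 2) (hs : x ^ 2 * z ^ 2 + 1 = s ^ 2)
    (ht : y ^ 2 * z ^ 2 + 1 = t ^ 2) :
    fifth x y z = (((r * s / t + r * t / s + s * t / r) / 2) ^ 2
      - (x ^ 2 * y ^ 2 + x ^ 2 * z ^ 2 + y ^ 2 * z ^ 2) - 2) / (x * y * z) ^ 2 := by
  have hp : (x * y) ^ 2 = r ^ 2 - 1 := by rw [← hr]; ring
  have hq : (x * z) ^ 2 = s ^ 2 - 1 := by rw [← hs]; ring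
  have hv : (y * z) ^ 2 = t ^ 2 - 1 := by rw [← ht]; ring
  have hp' : x ^ 2 * y ^ 2 = r ^ 2 - 1 := by rw [← hr]; ring
  have hq' : x ^ 2 * z ^ 2 = s ^ 2 - 1 := by rw [← hs]; ring
  have hv' : y ^ 2 * z ^ 2 = t ^ 2 - 1 := by rw [← ht]; ring
  have hxyz : x * y * z ≠ 0 := mul_ne_zero (mul_ne_zero hx hy) hz
  unfold fifth quartic
  rw [hp, hq, hv, hp', hq', hv', div_eq_div_iff]
  · have e : 1 + (r ^ 2 - 1) = r ^ 2 := by ring
    have e' : 1 + (s ^ 2 - 1) = s ^ 2 := by ring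
    have e'' : 1 + (t ^ 2 - 1) = t ^ 2 := by ring
    rw [e, e', e'']
    field_simp
    ring
  · have e : 1 + (r ^ 2 - 1) = r ^ 2 := by ring
    have e' : 1 + (s ^ 2 - 1) = s ^ 2 := by ring
    have e'' : 1 + (t ^ 2 - 1) = t ^ 2 := by ring
    rw [e, e', e'']
    positivity
  · positivity

theorem root_exists {u : ℚ} (h : IsSquare (u ^ 2 + 1)) : ∃ r : ℚ, r ≠ 0 ∧ u ^ 2 + 1 = r ^ 2 := by
  obtain ⟨r, hr⟩ := h
  refine ⟨r, ?_, by rw [hr]; ring⟩
  rintro rfl
  have := sq_nonneg u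
  linarith

/-- The ten products. -/
theorem products {x y z : ℚ} (hx : x ≠ 0) (hy : y ≠ 0) (hz : z ≠ 0)
    (hr : IsSquare (x ^ 2 * y ^ 2 + 1)) (hs : IsSquare (x ^ 2 * z ^ 2 + 1))
    (ht : IsSquare (y ^ 2 * z ^ 2 + 1)) (i j : Fin 5) (hij : i ≠ j) :
    IsSquare (five x y z i * five x y z j + 1) := by
  obtain ⟨r, hr0, hr'⟩ := root_exists (u := x * y) (by rwa [mul_pow])
  obtain ⟨s, hs0, hs'⟩ := root_exists (u := x * z) (by rwa [mul_pow])
  obtain ⟨t, ht0, ht'⟩ := root_exists (u := y * z) (by rwa [mul_pow])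
  rw [mul_pow] at hr' hs' ht'
  obtain ⟨k1, k2, k3, k4⟩ := Pool.Agent.H86.ET.key x y z r s t hx hy hz hr0 hs0 ht0 hr' hs' ht' _ rfl
  rw [← fifth_eq hx hy hz hr0 hs0 ht0 hr' hs' ht'] at k1 k2 k3 k4
  have k4' : IsSquare ((1 / (x * y * z)) ^ 2 * fifth x y z + 1) := by
    rw [one_div, inv_pow, ← one_div]
    exact k4
  have w1 : IsSquare (x ^ 2 * (1 / (x * y * z)) ^ 2 + 1) := by
    refine ⟨t / (y * z), ?_⟩
    have : x ^ 2 * (1 / (x * y * z)) ^ 2 + 1 = (y ^ 2 * z ^ 2 + 1) / (y * z) ^ 2 := by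
      field_simp; ring
    rw [this, ht']; ring
  have w2 : IsSquare (y ^ 2 * (1 / (x * y * z)) ^ 2 + 1) := by
    refine ⟨s / (x * z), ?_⟩
    have : y ^ 2 * (1 / (x * y * z)) ^ 2 + 1 = (x ^ 2 * z ^ 2 + 1) / (x * z) ^ 2 := by
      field_simp; ring
    rw [this, hs']; ring
  have w3 : IsSquare (z ^ 2 * (1 / (x * y * z)) ^ 2 + 1) := by
    refine ⟨r / (x * y), ?_⟩
    have : z ^ 2 * (1 / (x * y * z)) ^ 2 + 1 = (x ^ 2 * y ^ 2 + 1) / (x * y) ^ 2 := by
      field_simp; ring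
    rw [this, hr']; ring
  fin_cases i <;> fin_cases j <;> simp only [five, Fin.zero_eta, Fin.mk_one, Fin.reduceFinMk,
    Matrix.cons_val_zero, Matrix.cons_val_one, Matrix.cons_val] <;>
    first
      | exact absurd rfl hij
      | assumption
      | (rw [mul_comm]; assumption)

/-- The first four of the five numbers are squares of nonzero numbers. -/
theorem square_of_lt {x y z : ℚ} (hx : x ≠ 0) (hy : y ≠ 0) (hz : z ≠ 0) (i : Fin 5)
    (hi : i ≠ 4) : ∃ t : ℚ, t ≠ 0 ∧ five x y z i = t ^ 2 := by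
  fin_cases i
  · exact ⟨x, hx, rfl⟩
  · exact ⟨y, hy, rfl⟩
  · exact ⟨z, hz, rfl⟩
  · exact ⟨1 / (x * y * z), one_div_ne_zero (mul_ne_zero (mul_ne_zero hx hy) hz), rfl⟩
  · exact absurd rfl hi

/-- The five numbers are pairwise different. -/
theorem five_injective {x y z : ℚ} (hx : x ≠ 0) (hy : y ≠ 0) (hz : z ≠ 0)
    (hr : IsSquare (x ^ 2 * y ^ 2 + 1)) (hs : IsSquare (x ^ 2 * z ^ 2 + 1))
    (ht : IsSquare (y ^ 2 * z ^ 2 + 1)) : Function.Injective (five x y z) := by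
  intro i j h
  by_contra hij
  have key := products hx hy hz hr hs ht i j hij
  by_cases hi : i = 4
  · have hj : j ≠ 4 := fun e => hij (hi.trans e.symm)
    obtain ⟨t, ht0, e⟩ := square_of_lt hx hy hz j hj
    rw [h, e] at key
    exact not_square t ht0 key
  · obtain ⟨t, ht0, e⟩ := square_of_lt hx hy hz i hi
    rw [← h, e] at key
    exact not_square t ht0 key

theorem denominator_ne {x y z : ℚ} (hx : x ≠ 0) (hy : y ≠ 0) (hz : z ≠ 0) :
    4 * ((1 + (x * y) ^ 2) * (1 + (x * z) ^ 2) * (1 + (y * z) ^ 2)) * (x * y * z) ^ 2 ≠ 0 := by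
  positivity

/-- The fifth number is zero if and only if `w = 1 / (x y z)` is one of four linear forms. -/
theorem fifth_zero_iff {x y z : ℚ} (hx : x ≠ 0) (hy : y ≠ 0) (hz : z ≠ 0) :
    fifth x y z = 0 ↔ 1 / (x * y * z) = x + y + z ∨ 1 / (x * y * z) = x - y - z ∨
      1 / (x * y * z) = -x + y - z ∨ 1 / (x * y * z) = -x - y + z := by
  have h0 : x * y * z ≠ 0 := mul_ne_zero (mul_ne_zero hx hy) hz
  unfold fifth
  rw [div_eq_zero_iff, or_iff_left (denominator_ne hx hy hz), quartic_factor, mul_eq_zero,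
    mul_eq_zero, mul_eq_zero, div_eq_iff h0, div_eq_iff h0, div_eq_iff h0, div_eq_iff h0]
  constructor
  · rintro (((h | h) | h) | h)
    · exact Or.inr (Or.inl (by linarith))
    · exact Or.inr (Or.inr (Or.inl (by linarith)))
    · exact Or.inr (Or.inr (Or.inr (by linarith)))
    · exact Or.inl (by linarith)
  · rintro (h | h | h | h)
    · exact Or.inr (by linarith)
    · exact Or.inl (Or.inl (Or.inl (by linarith)))
    · exact Or.inl (Or.inl (Or.inr (by linarith)))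
    · exact Or.inl (Or.inr (by linarith))

/-- The fifth number is a square if and only if `quartic x y z` is a square. -/
theorem fifth_square_iff {x y z : ℚ} (hx : x ≠ 0) (hy : y ≠ 0) (hz : z ≠ 0)
    (hr : IsSquare (x ^ 2 * y ^ 2 + 1)) (hs : IsSquare (x ^ 2 * z ^ 2 + 1))
    (ht : IsSquare (y ^ 2 * z ^ 2 + 1)) :
    IsSquare (fifth x y z) ↔ IsSquare (quartic x y z) := by
  obtain ⟨r, hr0, hr'⟩ := root_exists (u := x * y) (by rwa [mul_pow])
  obtain ⟨s, hs0, hs'⟩ := root_exists (u := x * z) (by rwa [mul_pow])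
  obtain ⟨t, ht0, ht'⟩ := root_exists (u := y * z) (by rwa [mul_pow])
  have hd : 4 * ((1 + (x * y) ^ 2) * (1 + (x * z) ^ 2) * (1 + (y * z) ^ 2)) * (x * y * z) ^ 2
      = (2 * (r * s * t) * (x * y * z)) ^ 2 := by
    rw [add_comm 1 ((x * y) ^ 2), add_comm 1 ((x * z) ^ 2), add_comm 1 ((y * z) ^ 2), hr', hs',
      ht']
    ring
  have hd0 : 2 * (r * s * t) * (x * y * z) ≠ 0 := by
    have := denominator_ne hx hy hz
    rw [hd] at this
    exact fun e => this (by rw [e]; ring)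
  have e : quartic x y z = fifth x y z * (2 * (r * s * t) * (x * y * z)) ^ 2 := by
    unfold fifth
    rw [hd, div_mul_cancel₀ _ (pow_ne_zero 2 hd0)]
  constructor
  · rintro ⟨c, hc⟩
    exact ⟨c * (2 * (r * s * t) * (x * y * z)), by rw [e, hc]; ring⟩
  · rintro ⟨c, hc⟩
    refine ⟨c / (2 * (r * s * t) * (x * y * z)), ?_⟩
    rw [div_mul_div_comm, ← hc, e]
    field_simp

/-- **Every rational Diophantine triple of squares lies in a quintuple with four squares.**

Let `x`, `y`, `z` be nonzero rationals such that `x² y² + 1`, `x² z² + 1` and `y² z² + 1` are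
squares of rationals.
1. The five numbers `x²`, `y²`, `z²`, `1 / (x y z)²`, `fifth x y z` are pairwise different, and the
   product of any two of them plus one is a square.
2. `fifth x y z = 0` if and only if `1 / (x y z)` is `x + y + z`, `x - y - z`, `-x + y - z` or
   `-x - y + z`.
3. `fifth x y z` is a square if and only if `quartic x y z` is a square.

4. There are infinitely many sets of five positive rationals such that the product of any two of
   them plus one is a square and at least four of them are squares. -/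
theorem result :
    (∀ x y z : ℚ, x ≠ 0 → y ≠ 0 → z ≠ 0 → IsSquare (x ^ 2 * y ^ 2 + 1) →
      IsSquare (x ^ 2 * z ^ 2 + 1) → IsSquare (y ^ 2 * z ^ 2 + 1) →
      (∀ i j : Fin 5, i ≠ j → five x y z i ≠ five x y z j ∧
        IsSquare (five x y z i * five x y z j + 1)) ∧
      (fifth x y z = 0 ↔ 1 / (x * y * z) = x + y + z ∨ 1 / (x * y * z) = x - y - z ∨
        1 / (x * y * z) = -x + y - z ∨ 1 / (x * y * z) = -x - y + z) ∧
      (IsSquare (fifth x y z) ↔ IsSquare (quartic x y z))) ∧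
    {S : Finset ℚ | S.card = 5 ∧ (∀ x ∈ S, 0 < x) ∧
      (∀ x ∈ S, ∀ y ∈ S, x ≠ y → IsSquare (x * y + 1)) ∧
      ∃ T ⊆ S, T.card = 4 ∧ ∀ x ∈ T, IsSquare x}.Infinite :=
  ⟨fun _ _ _ hx hy hz hr hs ht =>
    ⟨fun i j hij => ⟨fun h => hij (five_injective hx hy hz hr hs ht h),
      products hx hy hz hr hs ht i j hij⟩, fifth_zero_iff hx hy hz,
      fifth_square_iff hx hy hz hr hs ht⟩,
    Pool.Agent.H86.ET.infinitely_many⟩

end Pool.Agent.Results.MP_1eba88_nt.EveryTriple
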